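import Mathlib

set_option autoImplicit false

namespace Pool.Agent.Results.MP_34bddf_lc.MaxNotIdealOfGamma

open Filter

/-- The extension of an operation on the positive integers to ultrafilters:
`A ∈ ext op F G` iff `{n | {m | op n m ∈ A} ∈ G} ∈ F`. -/
def ext (op : ℕ+ → ℕ+ → ℕ+) (F G : Ultrafilter ℕ+) : Ultrafilter ℕ+ :=
  F.bind (fun n => G.map (op n))

/-- Ultrafilters divisible by every positive integer. -/
def MAX : Set (Ultrafilter ℕ+) := {F | ∀ n : ℕ+, {m : ℕ+ | n ∣ m} ∈ F}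

/-- The closure of the set of additive idempotents. -/
def Gam : Set (Ultrafilter ℕ+) := closure {F | ext (· + ·) F F = F}

/-- `I` is a two-sided ideal for the extended multiplication. -/
def IsMulIdeal (I : Set (Ultrafilter ℕ+)) : Prop :=
  I.Nonempty ∧ (∀ F : Ultrafilter ℕ+, ∀ G ∈ I, ext (· * ·) F G ∈ I) ∧
    (∀ F : Ultrafilter ℕ+, ∀ G ∈ I, ext (· * ·) G F ∈ I)

/-- The two-sided ideal generated by `Gam`: the intersection of all ideals containing `Gam`. -/
def idealOfGam : Set (Ultrafilter ℕ+) := ⋂₀ {I | IsMulIdeal I ∧ Gam ⊆ I}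

theorem mem_ext {op : ℕ+ → ℕ+ → ℕ+} {F G : Ultrafilter ℕ+} {A : Set ℕ+} :
    A ∈ ext op F G ↔ {n | {m | op n m ∈ A} ∈ G} ∈ F := Iff.rfl

/-- ultrafilters all of whose members contain a Schur triple -/
def Schur : Set (Ultrafilter ℕ+) := {H | ∀ D ∈ H, ∃ x y : ℕ+, x ∈ D ∧ y ∈ D ∧ x + y ∈ D}

theorem gam_sub : Gam ⊆ Schur := by
  intro H hH D hD
  have hopen : IsOpen {u : Ultrafilter ℕ+ | D ∈ u} := ultrafilter_isOpen_basic D
  obtain ⟨V, hV1, hV2⟩ := mem_closure_iff.1 hH _ hopen hD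
  have hV3 : D ∈ V := hV1
  have h1 : D ∈ ext (· + ·) V V := by
    rw [show ext (· + ·) V V = V from hV2]
    exact hV3
  rw [mem_ext] at h1
  obtain ⟨x, hx1, hx2⟩ := V.nonempty_of_mem (Filter.inter_mem h1 hV3)
  obtain ⟨y, hy1, hy2⟩ := V.nonempty_of_mem (Filter.inter_mem hx1 hV3)
  exact ⟨x, y, hx2, hy2, hy1⟩

theorem schur_left (F G : Ultrafilter ℕ+) (hG : G ∈ Schur) : ext (· * ·) F G ∈ Schur := by
  intro D hD
  rw [mem_ext] at hD
  obtain ⟨n, hn⟩ := F.nonempty_of_mem hD
  obtain ⟨x, y, hx, hy, hxy⟩ := hG _ hn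
  refine ⟨n * x, n * y, hx, hy, ?_⟩
  rw [← mul_add]
  exact hxy

theorem schur_right (F G : Ultrafilter ℕ+) (hG : G ∈ Schur) : ext (· * ·) G F ∈ Schur := by
  intro D hD
  rw [mem_ext] at hD
  obtain ⟨x, y, hx, hy, hxy⟩ := hG _ hD
  obtain ⟨m, ⟨hm1, hm2⟩, hm3⟩ := F.nonempty_of_mem (Filter.inter_mem (Filter.inter_mem hx hy) hxy)
  refine ⟨x * m, y * m, hm1, hm2, ?_⟩
  rw [← add_mul]
  exact hm3

theorem schur_nonempty : Schur.Nonempty := by
  let _ := @Ultrafilter.add ℕ+ _
  obtain ⟨U, hU, -⟩ := Hindman.exists_idempotent_ultrafilter_le_FS (M := ℕ+) (Stream'.const 1)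
  refine ⟨U, gam_sub (subset_closure ?_)⟩
  change ext (· + ·) U U = U
  apply Ultrafilter.coe_injective
  ext A
  have h := Ultrafilter.eventually_add U U (fun m => m ∈ A)
  change A ∈ (U.bind fun n => U.map (n + ·)) ↔ A ∈ U
  constructor
  · intro h1
    have h2 : A ∈ (U + U : Ultrafilter ℕ+) := h.2 h1
    rw [hU] at h2
    exact h2
  · intro h1
    rw [← hU] at h1
    exact h.1 h1

theorem schur_ideal : IsMulIdeal Schur := ⟨schur_nonempty, schur_left, schur_right⟩

/-- the factorials -/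
def fac (n : ℕ) : ℕ+ := ⟨(n + 2).factorial, Nat.factorial_pos _⟩

/-- an ultrafilter on the factorials -/
noncomputable def FF : Ultrafilter ℕ+ := (hyperfilter ℕ).map fac

theorem FF_max : FF ∈ MAX := by
  intro n
  change {k : ℕ | n ∣ fac k} ∈ hyperfilter ℕ
  have h : ∀ᶠ k : ℕ in atTop, n ∣ fac k := by
    filter_upwards [eventually_ge_atTop (n : ℕ)] with k hk
    rw [PNat.dvd_iff]
    exact Nat.dvd_factorial n.pos (by omega)
  have h2 : (hyperfilter ℕ : Filter ℕ) ≤ atTop := by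
    rw [← Nat.cofinite_eq_atTop]
    exact hyperfilter_le_cofinite
  exact h2 h

theorem fac_sumfree (a b c : ℕ) (h : fac a + fac b = fac c) : False := by
  have h1 : (a + 2).factorial + (b + 2).factorial = (c + 2).factorial := by
    have := congrArg PNat.val h
    exact this
  have h2 : ∀ m : ℕ, 0 < (m + 2).factorial := fun m => Nat.factorial_pos _
  have hac : a < c := by
    by_contra hc
    have : (c + 2).factorial ≤ (a + 2).factorial := Nat.factorial_le (by omega)
    have := h2 b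
    omega
  have hbc : b < c := by
    by_contra hc
    have : (c + 2).factorial ≤ (b + 2).factorial := Nat.factorial_le (by omega)
    have := h2 a
    omega
  obtain ⟨d, rfl⟩ : ∃ d, c = d + 1 := ⟨c - 1, by omega⟩
  have h3 : (a + 2).factorial ≤ (d + 2).factorial := Nat.factorial_le (by omega)
  have h4 : (b + 2).factorial ≤ (d + 2).factorial := Nat.factorial_le (by omega)
  have h5 : (d + 1 + 2).factorial = (d + 1 + 2) * (d + 2).factorial := Nat.factorial_succ _
  have h6 := h2 d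
  nlinarith

theorem FF_not : FF ∉ Schur := by
  intro h
  obtain ⟨x, y, ⟨a, rfl⟩, ⟨b, rfl⟩, ⟨c, hc⟩⟩ := h (Set.range fac) (by
    change {k : ℕ | fac k ∈ Set.range fac} ∈ hyperfilter ℕ
    have : {k : ℕ | fac k ∈ Set.range fac} = Set.univ := by
      ext k; simp
    rw [this]
    exact Filter.univ_mem)
  exact fac_sumfree a b c hc.symm

/-- `MAX` is different from the multiplicative ideal generated by `Gam`: some ultrafilter in `MAX`
does not belong to this ideal. -/
theorem result : ∃ F ∈ MAX, F ∉ idealOfGam := by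
  refine ⟨FF, FF_max, fun h => FF_not ?_⟩
  exact h Schur ⟨schur_ideal, gam_sub⟩

end Pool.Agent.Results.MP_34bddf_lc.MaxNotIdealOfGamma
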